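import Mathlib
import Pool.Agent.Y767.SM.One

/-!
# One Cohen real, and set mappings of all types

Let `P` be the forcing which adds `θ` Cohen reals (finite partial functions from `θ` to `ω`), where
`θ` is any infinite cardinal; for `θ = ℵ₀` this is the countable forcing which adds a single Cohen
real. Over every ground model it preserves cardinals and forces the negative relations
`(κ, r, 2) ↛ ℵ₁` for all `r ≥ 2` and all cardinals `κ < ℵ_r`, simultaneously. For `θ ≤ 2 ^ ℵ₀` it
preserves the generalized continuum hypothesis, under which `(ℵ_r, r, ℵ₀) → ℵ₁` holds; so in these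
models `(κ, r, 2) → ℵ₁` holds if and only if `κ ≥ ℵ_r`. The case `r = 4`, `κ = ℵ₃` is the question;
the starting result `CohenMapping` settles it with `ℵ₁` Cohen reals.

The mapping. For `a < b < ω₁` the value at `{a, b}` is the element of `b` whose number, in an
enumeration of `b` of type `ω`, is `c (e_b a)`; here `c : ω → ω` is the Cohen real and `e_b : b → ω`
is injective. The mappings on `ω₂, ω₃, ...` are obtained by stepping up: the value at `Y ∪ {z}`,
where `z` is the largest element, is the value at the image of `Y` under an injection of `z` into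
the preceding cardinal. For every condition `p` there is a number `N` such that every set with `N`
elements is made non-free by an extension of `p`.
-/

set_option autoImplicit false

namespace Pool.Agent.Results.MP_7295f2_lc.OneCohenReal

open Cardinal Pool.Agent.Helper669.Forcing Pool.Agent.Helper669.SetMap
  Pool.Agent.Helper669.SetMap2

/-- **One Cohen real suffices, for all types at once.** Let `θ` be an infinite cardinal and
`P = Fn θ.out` the forcing of the finite partial functions from `θ` to `ω` (`θ` Cohen reals; for
`θ = ℵ₀` it is countable and adds one Cohen real). Every condition forces that all cardinals of the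
ground model are still cardinals, and that `(κ, r, 2) ↛ ℵ₁` for all `r ≥ 2` and all cardinals
`κ < ℵ_r`; and if `θ ≤ 2 ^ ℵ₀` and the generalized continuum hypothesis holds in the ground model,
then every condition forces the generalized continuum hypothesis. -/
theorem result (θ : Cardinal.{0}) (hθ : ℵ₀ ≤ θ) (p : Fn θ.out) :
    p ∈ CardinalsPreserved.{0, 0} (Fn θ.out) ∧
      (∀ (r : ℕ) (κ : Cardinal.{0}), 2 ≤ r → κ < ℵ_ r →
        p ∈ NoFreeSet.{0, 0} (Fn θ.out) κ r ℵ₁) ∧
      (θ ≤ 2 ^ ℵ₀ → (∀ μ : Cardinal.{0}, ℵ₀ ≤ μ → 2 ^ μ = Order.succ μ) →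
        p ∈ ForcesGCH.{0, 0} (Fn θ.out)) := by
  have hinf : Infinite θ.out := by
    rw [Cardinal.infinite_iff, mk_out]
    exact hθ
  refine ⟨cardinalsPreserved p, fun r κ hr hκ => ?_, fun h hG => ?_⟩
  · obtain ⟨n, rfl⟩ : ∃ n, r = n + 2 := ⟨r - 2, by omega⟩
    exact Pool.Agent.Y767.SM.noFreeSet1 n κ hκ p
  · exact forcesGCH (by rw [mk_out]; exact h) hG p

end Pool.Agent.Results.MP_7295f2_lc.OneCohenReal
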